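import Mathlib.LinearAlgebra.Matrix.NonsingularInverse
import Mathlib.NumberTheory.Basic
import Mathlib.FieldTheory.Finite.Basic
import Mathlib.Data.ZMod.Basic

/-!
BC-U (MP_1fe969_ag, Candidate 2). Matrices of odd order have no eigenvalue `-1` modulo an odd prime; if
`8 ∣ ord_r q`, then `r ^ k ∣ q ^ j + 1` for some `j > 0` with `8 ∣ 2 j`.
-/

set_option autoImplicit false

namespace Pool.Agent.Helper43.BC

open Matrix

/-- A matrix of odd order over a ring where `2` is regular does not have the eigenvalue `-1`. -/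
theorem det_neg_one_sub_ne {ι k : Type*} [Fintype ι] [DecidableEq ι] [CommRing k] [IsDomain k]
    (h2 : (2 : k) ≠ 0) {h : Matrix ι ι k} {m : ℕ} (hm : Odd m) (hh : h ^ m = 1) :
    (-1 - h).det ≠ 0 := by
  have h1 : (∑ i ∈ Finset.range m, (-h) ^ i) * (-1 - h) = (-2 : k) • (1 : Matrix ι ι k) := by
    have h3 : (-1 - h : Matrix ι ι k) = -h - 1 := by abel
    rw [h3, geom_sum_mul, hm.neg_pow, hh, neg_smul, two_smul]
    abel
  have h4 := congrArg Matrix.det h1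
  rw [Matrix.det_mul, Matrix.det_smul, Matrix.det_one, mul_one] at h4
  intro h5
  rw [h5, mul_zero] at h4
  exact pow_ne_zero _ (neg_ne_zero.2 h2) h4.symm

theorem det_one_add_ne {ι k : Type*} [Fintype ι] [DecidableEq ι] [CommRing k] [IsDomain k]
    (h2 : (2 : k) ≠ 0) {h : Matrix ι ι k} {m : ℕ} (hm : Odd m) (hh : h ^ m = 1) :
    (1 + h).det ≠ 0 := by
  have h1 := det_neg_one_sub_ne h2 hm hh
  have h3 : (-1 - h : Matrix ι ι k) = -(1 + h) := by abel
  rw [h3, Matrix.det_neg] at h1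
  exact right_ne_zero_of_mul h1

/-- the same for a power of a matrix of order `m`, `16 ∤ m`, with exponent divisible by `8` -/
theorem pow_odd {M : Type*} [Monoid M] {g : M} {m l : ℕ} (hm : ¬ 16 ∣ m) (hg : g ^ m = 1)
    (hl : 8 ∣ l) : ∃ m', Odd m' ∧ (g ^ l) ^ m' = 1 := by
  have hm0 : m ≠ 0 := by
    rintro rfl
    exact hm (dvd_zero _)
  obtain ⟨a, m', hm', rfl⟩ := Nat.exists_eq_two_pow_mul_odd hm0
  refine ⟨m', hm', ?_⟩
  have ha : a ≤ 3 := by
    by_contra ha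
    apply hm
    have h1 : (2 : ℕ) ^ 4 ∣ 2 ^ a := pow_dvd_pow 2 (by omega)
    exact (Dvd.dvd.mul_right (by simpa using h1) m')
  obtain ⟨c, rfl⟩ := hl
  have h1 : (2 : ℕ) ^ a ∣ 8 := by
    have := pow_dvd_pow 2 ha
    simpa using this
  obtain ⟨d, hd⟩ := h1
  rw [← pow_mul, hd]
  have h2 : 2 ^ a * d * c * m' = (2 ^ a * m') * (d * c) := by ring
  rw [h2, pow_mul, hg, one_pow]

/-- If `8 ∣ ord_r q` then `r ^ k ∣ q ^ j + 1` for some `j > 0` with `8 ∣ 2 j`. -/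
theorem exists_pow {q r : ℕ} [Fact r.Prime] (h8 : 8 ∣ orderOf (q : ZMod r)) (k : ℕ)
    (hq : (q : ZMod r) ≠ 0) : ∃ j, 0 < j ∧ r ^ k ∣ q ^ j + 1 ∧ 8 ∣ 2 * j := by
  obtain ⟨c, hc⟩ := h8
  have hr : r.Prime := Fact.out
  have hfin : IsOfFinOrder (q : ZMod r) := by
    rw [isOfFinOrder_iff_pow_eq_one]
    exact ⟨r - 1, Nat.sub_pos_of_lt hr.one_lt, ZMod.pow_card_sub_one_eq_one hq⟩
  have hpos : 0 < orderOf (q : ZMod r) := orderOf_pos_iff.2 hfin
  have hc0 : 0 < c := by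
    rcases Nat.eq_zero_or_pos c with h | h
    · rw [h, mul_zero] at hc
      omega
    · exact h
  have hodd : Odd r := by
    refine hr.odd_of_ne_two ?_
    rintro rfl
    have h1 : orderOf (q : ZMod 2) ∣ 2 - 1 := orderOf_dvd_of_pow_eq_one (ZMod.pow_card_sub_one_eq_one hq)
    have h2 := Nat.le_of_dvd (by norm_num) h1
    omega
  have h1 : (q : ZMod r) ^ (4 * c) = -1 := by
    have h2 : ((q : ZMod r) ^ (4 * c)) ^ 2 = 1 := by
      rw [← pow_mul, show 4 * c * 2 = 8 * c by ring, ← hc, pow_orderOf_eq_one]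
    rcases mul_self_eq_one_iff.1 ((sq _).symm.trans h2) with h3 | h3
    · exfalso
      have h4 := Nat.le_of_dvd (by omega) (orderOf_dvd_of_pow_eq_one h3)
      omega
    · exact h3
  refine ⟨4 * c * r ^ k, by have := hr.pos; positivity, ?_, ⟨c * r ^ k, by ring⟩⟩
  have h5 : (r : ℤ) ∣ (q : ℤ) ^ (4 * c) - (-1) := by
    rw [← ZMod.intCast_zmod_eq_zero_iff_dvd]
    push_cast
    rw [h1]
    ring
  have h6 := dvd_sub_pow_of_dvd_sub (R := ℤ) (p := r) h5 k
  rw [(hodd.pow).neg_one_pow, ← pow_mul, sub_neg_eq_add] at h6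
  have h7 : ((r ^ k : ℕ) : ℤ) ∣ ((q ^ (4 * c * r ^ k) + 1 : ℕ) : ℤ) := by
    push_cast
    exact (pow_dvd_pow _ (Nat.le_succ k)).trans h6
  exact_mod_cast h7

end Pool.Agent.Helper43.BC
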