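import Mathlib.GroupTheory.OrderOfElement
import Mathlib.FieldTheory.Finite.Basic
import Mathlib.Data.ZMod.Basic

/-!
BC-BP (MP_1fe969_ag, TowerBaseChanges): `r ^ k ∣ q ^ j + 1`, `4 ∣ j` implies `12 < r`.
-/

set_option autoImplicit false

namespace Pool.Agent.Helper43.BC

theorem big_prime {r q j k : ℕ} (hr : r.Prime) (hr2 : r ≠ 2) (hj : 4 ∣ j) (hk : 0 < k)
    (h : r ^ k ∣ q ^ j + 1) : 12 < r := by
  have : Fact r.Prime := ⟨hr⟩
  obtain ⟨i, rfl⟩ := hj
  have h1 : r ∣ q ^ (4 * i) + 1 := (dvd_pow_self r hk.ne').trans h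
  have h2 : ((q : ZMod r) ^ i) ^ 4 = -1 := by
    have h3 : ((q ^ (4 * i) + 1 : ℕ) : ZMod r) = 0 := (ZMod.natCast_eq_zero_iff _ _).2 h1
    push_cast at h3
    rw [← pow_mul, mul_comm i 4]
    exact eq_neg_of_add_eq_zero_left h3
  have hne : (-1 : ZMod r) ≠ 1 := by
    have : Fact (2 < r) := ⟨lt_of_le_of_ne hr.two_le (Ne.symm hr2)⟩
    exact ZMod.neg_one_ne_one
  have h8 : orderOf ((q : ZMod r) ^ i) = 2 ^ (2 + 1) := by
    refine orderOf_eq_prime_pow ?_ ?_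
    · show ¬ ((q : ZMod r) ^ i) ^ 4 = 1
      rw [h2]
      exact hne
    · show ((q : ZMod r) ^ i) ^ 8 = 1
      calc ((q : ZMod r) ^ i) ^ 8 = (((q : ZMod r) ^ i) ^ 4) ^ 2 := by ring
        _ = 1 := by rw [h2]; ring
  have h0 : (q : ZMod r) ^ i ≠ 0 := by
    intro h0
    rw [h0] at h2
    rw [zero_pow (by norm_num)] at h2
    exact one_ne_zero (α := ZMod r) (by linear_combination h2)
  have h9 : 8 ∣ r - 1 := by
    have := orderOf_dvd_of_pow_eq_one (ZMod.pow_card_sub_one_eq_one h0)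
    rw [h8] at this
    exact this
  obtain ⟨c, hc⟩ := h9
  have hr1 := hr.one_lt
  by_contra hlt
  have hc1 : c = 1 := by omega
  have hr9 : r = 9 := by omega
  subst hr9
  revert hr
  decide

end Pool.Agent.Helper43.BC
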